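import Pool.Agent.H55.PM.Targets

/-!
Module CT (board pm_modules, MP_9198c9_nt): beyond `log x / log log x` the density of the set of
parts does not decide.
-/

set_option autoImplicit false

open Filter

namespace Pool.Agent.H55.PM.CTm

/-- the threshold belonging to the level `i` -/
def X (i : ℕ) : ℕ := 2 ^ 2 ^ (2 ^ i - 1)

lemma le_X (i : ℕ) : i ≤ X i := by
  unfold X
  have h1 : i ≤ 2 ^ i - 1 := by
    have := Nat.lt_two_pow_self (n := i)
    omega
  have h2 : 2 ^ i - 1 < 2 ^ (2 ^ i - 1) := Nat.lt_two_pow_self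
  have h3 : 2 ^ (2 ^ i - 1) < 2 ^ 2 ^ (2 ^ i - 1) := Nat.lt_two_pow_self
  omega

open Classical in
/-- a natural valued minorant of `h` on the scale `X` -/
noncomputable def kap (h : ℕ → ℝ) (i : ℕ) : ℕ :=
  Nat.findGreatest (fun k => ∀ x ≥ X i, (16 : ℝ) * 2 ^ k ≤ h x) i

lemma kap_spec (h : ℕ → ℝ) (hh : Tendsto h atTop atTop) :
    ∃ i₀ : ℕ, ∀ i ≥ i₀, ∀ x ≥ X i, (16 : ℝ) * 2 ^ kap h i ≤ h x := by
  classical
  obtain ⟨i₀, hi₀⟩ := (eventually_atTop.1 (hh.eventually_ge_atTop (16 : ℝ)))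
  refine ⟨i₀, fun i hi => ?_⟩
  have h0 : (fun k => ∀ x ≥ X i, (16 : ℝ) * 2 ^ k ≤ h x) 0 := by
    intro x hx
    have : i₀ ≤ x := le_trans hi (le_trans (le_X i) hx)
    simpa using hi₀ x this
  exact Nat.findGreatest_spec (P := fun k => ∀ x ≥ X i, (16 : ℝ) * 2 ^ k ≤ h x) (Nat.zero_le i) h0

lemma kap_tendsto (h : ℕ → ℝ) (hh : Tendsto h atTop atTop) :
    Tendsto (fun i => (kap h i : ℝ)) atTop atTop := by
  classical
  refine tendsto_natCast_atTop_atTop.comp (tendsto_atTop.2 fun k => ?_)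
  obtain ⟨i₀, hi₀⟩ := (eventually_atTop.1 (hh.eventually_ge_atTop ((16 : ℝ) * 2 ^ k)))
  filter_upwards [eventually_ge_atTop i₀, eventually_ge_atTop k] with i hi hk
  refine Nat.le_findGreatest hk ?_
  intro x hx
  exact hi₀ x (le_trans hi (le_trans (le_X i) hx))

section
variable (l : ℕ → ℕ)

/-- the exponent subtracted -/
def m (i : ℕ) : ℕ := i - l i

/-- the number of parts below `2 ^ 2 ^ s` -/
def P (s : ℕ) : ℕ := 2 ^ (s - m l (Nat.log 2 s))

variable {l}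
variable (hmon : Monotone l) (hstep : ∀ i, l (i + 1) ≤ l i + 1) (hhalf : ∀ i, 2 * l i ≤ i)

include hhalf in
lemma m_add (i : ℕ) : m l i + l i = i := by
  have := hhalf i
  unfold m
  omega

lemma m_le (i : ℕ) : m l i ≤ i := Nat.sub_le _ _

include hstep hhalf in
lemma m_mono : Monotone (m l) := by
  refine monotone_nat_of_le_succ fun i => ?_
  have h1 := m_add hhalf i
  have h2 := m_add hhalf (i + 1)
  have h3 := hstep i
  omega

include hmon hhalf in
lemma m_step (i : ℕ) : m l (i + 1) ≤ m l i + 1 := by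
  have h1 := m_add hhalf i
  have h2 := m_add hhalf (i + 1)
  have h3 := hmon (Nat.le_succ i)
  have h4 : l i ≤ l (i + 1) := h3
  omega

lemma mlog_le (s : ℕ) : m l (Nat.log 2 s) ≤ s :=
  le_trans (m_le _) (Nat.log_le_self 2 s)

lemma P_mul (s : ℕ) : P l s * 2 ^ m l (Nat.log 2 s) = 2 ^ s := by
  unfold P
  rw [← pow_add]
  congr 1
  have := mlog_le (l := l) s
  omega

lemma log_succ (s : ℕ) : Nat.log 2 (s + 1) ≤ Nat.log 2 s + 1 := by
  rcases Nat.eq_zero_or_pos s with h | h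
  · subst h
    simp
  · have h1 : Nat.log 2 (s + 1) ≤ Nat.log 2 (s * 2) := Nat.log_mono_right (by omega)
    rw [Nat.log_mul_base (by norm_num) (by omega)] at h1
    exact h1

include hmon hstep hhalf in
lemma P_mono : Monotone (P l) := by
  refine monotone_nat_of_le_succ fun s => ?_
  unfold P
  refine Nat.pow_le_pow_right (by norm_num) ?_
  have h1 : m l (Nat.log 2 (s + 1)) ≤ m l (Nat.log 2 s) + 1 :=
    le_trans (m_mono hstep hhalf (log_succ s)) (m_step hmon hhalf _)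
  omega

lemma P_le (s : ℕ) : P l s ≤ 2 ^ s :=
  Nat.pow_le_pow_right (by norm_num) (Nat.sub_le _ _)

lemma P_pos (s : ℕ) : 0 < P l s := by
  unfold P
  positivity

lemma P_zero : P l 0 = 1 := by
  simp [P]

include hstep hhalf in
lemma P_ratio {r s : ℕ} (hrs : r ≤ s) : P l s * 2 ^ r ≤ P l r * 2 ^ s := by
  have h1 : m l (Nat.log 2 r) ≤ m l (Nat.log 2 s) :=
    m_mono hstep hhalf (Nat.log_mono_right hrs)
  have h2 := P_mul (l := l) r
  have h3 := P_mul (l := l) s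
  calc P l s * 2 ^ r = P l s * (P l r * 2 ^ m l (Nat.log 2 r)) := by rw [h2]
    _ ≤ P l s * (P l r * 2 ^ m l (Nat.log 2 s)) := by
        gcongr
        norm_num
    _ = P l r * (P l s * 2 ^ m l (Nat.log 2 s)) := by ring
    _ = P l r * 2 ^ s := by rw [h3]

/-- the level of `x` -/
lemma level (x : ℕ) (hx : 2 ≤ x) : ∃ s : ℕ, 2 ^ 2 ^ s ≤ x ∧ x < 2 ^ 2 ^ (s + 1) := by
  have h1 : 1 ≤ Nat.log 2 x := Nat.le_log_of_pow_le (by norm_num) (by simpa using hx)
  refine ⟨Nat.log 2 (Nat.log 2 x), ?_, ?_⟩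
  · have h2 : 2 ^ Nat.log 2 (Nat.log 2 x) ≤ Nat.log 2 x := Nat.pow_log_le_self 2 (by omega)
    calc 2 ^ 2 ^ Nat.log 2 (Nat.log 2 x) ≤ 2 ^ Nat.log 2 x :=
          Nat.pow_le_pow_right (by norm_num) h2
      _ ≤ x := Nat.pow_log_le_self 2 (by omega)
  · have h2 : Nat.log 2 x < 2 ^ (Nat.log 2 (Nat.log 2 x) + 1) :=
      Nat.lt_pow_succ_log_self (by norm_num) _
    calc x < 2 ^ (Nat.log 2 x + 1) := Nat.lt_pow_succ_log_self (by norm_num) _
      _ ≤ 2 ^ 2 ^ (Nat.log 2 (Nat.log 2 x) + 1) := Nat.pow_le_pow_right (by norm_num) h2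

lemma level_ge {x s j : ℕ} (h : x < 2 ^ 2 ^ (s + 1)) (hj : 2 ^ 2 ^ j ≤ x) : j ≤ s := by
  by_contra hc
  push Not at hc
  have h1 : 2 ^ 2 ^ (s + 1) ≤ 2 ^ 2 ^ j :=
    Nat.pow_le_pow_right (by norm_num) (Nat.pow_le_pow_right (by norm_num) hc)
  omega

lemma log_lower {x s : ℕ} (h : 2 ^ 2 ^ s ≤ x) : (2 : ℝ) ^ s * Real.log 2 ≤ Real.log x := by
  have h1 : ((2 : ℝ) ^ 2 ^ s) ≤ x := by exact_mod_cast h
  have h2 := Real.log_le_log (by positivity) h1
  rw [Real.log_pow] at h2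
  exact_mod_cast h2

lemma log_upper {x s : ℕ} (hx : 2 ≤ x) (h : x < 2 ^ 2 ^ (s + 1)) :
    Real.log x ≤ (2 : ℝ) ^ (s + 1) * Real.log 2 := by
  have h1 : (x : ℝ) ≤ ((2 : ℝ) ^ 2 ^ (s + 1)) := by exact_mod_cast h.le
  have h2 := Real.log_le_log (by positivity) h1
  rw [Real.log_pow] at h2
  exact_mod_cast h2

lemma one_mem (P : ℕ → ℕ) : 1 ∈ CL P := Or.inl rfl

lemma cnt_pos (P : ℕ → ℕ) {x : ℕ} (hx : 1 ≤ x) : 1 ≤ cnt (CL P) x := by
  unfold cnt
  have hfin : (CL P ∩ Set.Icc 1 x).Finite := (Set.finite_Icc 1 x).inter_of_right _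
  have : (CL P ∩ Set.Icc 1 x).Nonempty := ⟨1, one_mem P, ⟨le_refl 1, hx⟩⟩
  exact (Set.ncard_pos hfin).2 this

end

theorem ct (hCC : T_CC) (hSL : T_SL) (hNG : T_NG) : T_CT := by
  intro h hh
  obtain ⟨i₁, hi₁⟩ := kap_spec h hh
  obtain ⟨l, hmon, hltend, hstep, hhalf, i₂, hi₂⟩ := hSL (fun i => (kap h i : ℝ))
    (kap_tendsto h hh)
  have hPm : Monotone (P l) := P_mono hmon hstep hhalf
  -- the two counting bounds
  have hlow : ∀ s x : ℕ, 2 ^ 2 ^ s ≤ x → x < 2 ^ 2 ^ (s + 1) → P l s ≤ 2 * cnt (CL (P l)) x := by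
    intro s x h1 h2
    have h3 := (hCC (P l) hPm P_le s x h1 h2).1
    rw [P_zero] at h3
    have h4 : 1 ≤ cnt (CL (P l)) x := cnt_pos _ (le_trans Nat.one_le_two_pow h1)
    omega
  have hupp : ∀ s x : ℕ, 2 ^ 2 ^ s ≤ x → x < 2 ^ 2 ^ (s + 1) →
      cnt (CL (P l)) x ≤ 2 * P l (s + 1) := by
    intro s x h1 h2
    have h3 := (hCC (P l) hPm P_le s x h1 h2).2
    have h4 := P_pos (l := l) (s + 1)
    omega
  have hlog2 : (1 : ℝ) / 2 ≤ Real.log 2 := by
    have := Real.log_two_gt_d9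
    linarith
  have hlog2' : Real.log 2 ≤ 1 := by
    have := Real.log_two_lt_d9
    linarith
  refine ⟨CL (P l), ?_, ?_, one_mem _, ?_, ?_, ?_, ?_⟩
  · -- infinite
    intro hfin
    set N := (CL (P l)).ncard with hN
    have hj : N + 2 ≤ 2 ^ (N + 2) - (N + 2) := by
      have : ∀ j : ℕ, 2 * (j + 1) ≤ 2 ^ (j + 1) := by
        intro j
        induction j with
        | zero => norm_num
        | succ j ih =>
          rw [pow_succ]
          omega
      have := this (N + 1)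
      have h5 : N + 1 + 1 = N + 2 := rfl
      rw [h5] at this
      omega
    have h1 := hlow (2 ^ (N + 2)) (2 ^ 2 ^ 2 ^ (N + 2)) le_rfl
      (Nat.pow_lt_pow_right (by norm_num) (Nat.pow_lt_pow_right (by norm_num) (by omega)))
    have h2 : cnt (CL (P l)) (2 ^ 2 ^ 2 ^ (N + 2)) ≤ N :=
      Set.ncard_le_ncard Set.inter_subset_left hfin
    have h3 : 2 ^ (N + 2) ≤ P l (2 ^ (N + 2)) := by
      unfold P
      refine Nat.pow_le_pow_right (by norm_num) ?_
      have h6 : Nat.log 2 (2 ^ (N + 2)) = N + 2 := Nat.log_pow (by norm_num) _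
      rw [h6]
      have := m_le (l := l) (N + 2)
      omega
    have h4 : 2 * (N + 2) ≤ 2 ^ (N + 2) := by omega
    omega
  · intro a ha
    rcases ha with ha | ⟨s, h1, -⟩
    · omega
    · exact lt_of_lt_of_le (by positivity) h1
  · -- almost decreasing
    refine ⟨16, 2, fun x y hy hyx => ?_⟩
    obtain ⟨s, hs1, hs2⟩ := level x (le_trans hy hyx)
    obtain ⟨r, hr1, hr2⟩ := level y hy
    have hrs : r ≤ s := level_ge hs2 (le_trans hr1 hyx)
    have h1 := hupp s x hs1 hs2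
    have h2 := hlow r y hr1 hr2
    have h3 := P_ratio (l := l) hstep hhalf (show r ≤ s + 1 by omega)
    have h4 : cnt (CL (P l)) x * 2 ^ (r + 1) ≤ 16 * cnt (CL (P l)) y * 2 ^ s := by
      calc cnt (CL (P l)) x * 2 ^ (r + 1) ≤ 2 * P l (s + 1) * 2 ^ (r + 1) := by gcongr
        _ = 4 * (P l (s + 1) * 2 ^ r) := by rw [pow_succ]; ring
        _ ≤ 4 * (P l r * 2 ^ (s + 1)) := by gcongr
        _ = 8 * P l r * 2 ^ s := by rw [pow_succ]; ring
        _ ≤ 8 * (2 * cnt (CL (P l)) y) * 2 ^ s := by gcongr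
        _ = 16 * cnt (CL (P l)) y * 2 ^ s := by ring
    have h5 : (cnt (CL (P l)) x : ℝ) * 2 ^ (r + 1) ≤ 16 * cnt (CL (P l)) y * 2 ^ s := by
      exact_mod_cast h4
    have h6 := log_upper hy hr2
    have h7 := log_lower hs1
    calc (cnt (CL (P l)) x : ℝ) * Real.log y
        ≤ cnt (CL (P l)) x * ((2 : ℝ) ^ (r + 1) * Real.log 2) := by gcongr
      _ = (cnt (CL (P l)) x * 2 ^ (r + 1)) * Real.log 2 := by ring
      _ ≤ (16 * cnt (CL (P l)) y * 2 ^ s) * Real.log 2 := by gcongr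
      _ = 16 * cnt (CL (P l)) y * (2 ^ s * Real.log 2) := by ring
      _ ≤ 16 * cnt (CL (P l)) y * Real.log x := by gcongr
  · -- density zero
    rw [Metric.tendsto_atTop]
    intro ε hε
    obtain ⟨j, hj⟩ : ∃ j : ℕ, 8 * (1 / 2 : ℝ) ^ j < ε := by
      obtain ⟨j, hj⟩ := exists_pow_lt_of_lt_one (show (0 : ℝ) < ε / 8 by positivity)
        (show (1 / 2 : ℝ) < 1 by norm_num)
      exact ⟨j, by linarith⟩
    refine ⟨2 ^ 2 ^ 2 ^ (2 * j), fun x hx => ?_⟩
    have hx2 : 2 ≤ x := by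
      have h1 : 1 ≤ 2 ^ 2 ^ (2 * j) := Nat.one_le_two_pow
      have h2 : 2 ^ 1 ≤ 2 ^ 2 ^ 2 ^ (2 * j) := Nat.pow_le_pow_right (by norm_num) h1
      omega
    obtain ⟨s, hs1, hs2⟩ := level x hx2
    have hsj : 2 ^ (2 * j) ≤ s := level_ge hs2 hx
    have h1 := hupp s x hs1 hs2
    have h2 := P_mul (l := l) (s + 1)
    have h3 : j ≤ m l (Nat.log 2 (s + 1)) := by
      have h4 : 2 * j ≤ Nat.log 2 (s + 1) := by
        refine Nat.le_log_of_pow_le (by norm_num) (by omega)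
      have h5 := m_add hhalf (2 * j)
      have h6 := hhalf (2 * j)
      have h7 := m_mono hstep hhalf h4
      omega
    have h4 : cnt (CL (P l)) x * 2 ^ j ≤ 4 * 2 ^ s := by
      calc cnt (CL (P l)) x * 2 ^ j ≤ 2 * P l (s + 1) * 2 ^ m l (Nat.log 2 (s + 1)) := by
            gcongr
            norm_num
        _ = 2 * (P l (s + 1) * 2 ^ m l (Nat.log 2 (s + 1))) := by ring
        _ = 2 * 2 ^ (s + 1) := by rw [h2]
        _ = 4 * 2 ^ s := by rw [pow_succ]; ring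
    have h5 : (cnt (CL (P l)) x : ℝ) * 2 ^ j ≤ 4 * 2 ^ s := by exact_mod_cast h4
    have h6 := log_lower hs1
    have h7 : (2 : ℝ) ^ s ≤ 2 * Real.log x := by
      have : (2 : ℝ) ^ s * (1 / 2) ≤ 2 ^ s * Real.log 2 := by gcongr
      linarith
    have hlx : 0 < Real.log x := by
      have : (0 : ℝ) < 2 ^ s := by positivity
      linarith
    have h8 : (cnt (CL (P l)) x : ℝ) / Real.log x ≤ 8 * (1 / 2) ^ j := by
      rw [div_le_iff₀ hlx]
      have h9 : (0 : ℝ) < 2 ^ j := by positivity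
      have h10 : (cnt (CL (P l)) x : ℝ) * 2 ^ j ≤ 8 * Real.log x := by linarith
      rw [one_div, inv_pow]
      have h11 : (cnt (CL (P l)) x : ℝ) ≤ 8 * Real.log x / 2 ^ j := by
        rw [le_div_iff₀ h9]
        exact h10
      calc (cnt (CL (P l)) x : ℝ) ≤ 8 * Real.log x / 2 ^ j := h11
        _ = 8 * (2 ^ j)⁻¹ * Real.log x := by
          rw [div_eq_mul_inv]
          ring
    rw [Real.dist_eq, sub_zero, abs_of_nonneg (by positivity)]
    linarith
  · -- the upper bound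
    refine ⟨2 ^ 2 ^ 2 ^ (max i₁ i₂), fun x hx => ?_⟩
    have hx2 : 2 ≤ x := by
      have h1 : 1 ≤ 2 ^ 2 ^ (max i₁ i₂) := Nat.one_le_two_pow
      have h2 : 2 ^ 1 ≤ 2 ^ 2 ^ 2 ^ (max i₁ i₂) := Nat.pow_le_pow_right (by norm_num) h1
      omega
    obtain ⟨s, hs1, hs2⟩ := level x hx2
    have hsj : 2 ^ (max i₁ i₂) ≤ s := level_ge hs2 hx
    set i := Nat.log 2 (s + 1) with hi
    have hi4 : max i₁ i₂ ≤ i := Nat.le_log_of_pow_le (by norm_num) (by omega)
    have hs3 : s + 1 < 2 ^ (i + 1) := Nat.lt_pow_succ_log_self (by norm_num) _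
    have hs4 : 2 ^ i ≤ s + 1 := Nat.pow_log_le_self 2 (by omega)
    have hX : X i ≤ x := by
      refine le_trans ?_ hs1
      unfold X
      refine Nat.pow_le_pow_right (by norm_num) (Nat.pow_le_pow_right (by norm_num) (by omega))
    have h1 := hupp s x hs1 hs2
    have h2 := P_mul (l := l) (s + 1)
    rw [← hi] at h2
    have h3 := m_add hhalf i
    have h4 : cnt (CL (P l)) x * (s + 1) * 2 ^ m l i ≤ 8 * 2 ^ l i * 2 ^ s * 2 ^ m l i := by
      calc cnt (CL (P l)) x * (s + 1) * 2 ^ m l i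
          ≤ 2 * P l (s + 1) * 2 ^ (i + 1) * 2 ^ m l i := by gcongr
        _ = 2 * 2 ^ (i + 1) * (P l (s + 1) * 2 ^ m l i) := by ring
        _ = 2 * 2 ^ (i + 1) * 2 ^ (s + 1) := by rw [h2]
        _ = 8 * 2 ^ i * 2 ^ s := by rw [pow_succ, pow_succ]; ring
        _ = 8 * 2 ^ (m l i + l i) * 2 ^ s := by rw [h3]
        _ = 8 * 2 ^ l i * 2 ^ s * 2 ^ m l i := by rw [pow_add]; ring
    have h5 : cnt (CL (P l)) x * (s + 1) ≤ 8 * 2 ^ l i * 2 ^ s :=
      Nat.le_of_mul_le_mul_right h4 (by positivity)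
    have h6 : (cnt (CL (P l)) x : ℝ) * (s + 1) ≤ 8 * 2 ^ l i * 2 ^ s := by exact_mod_cast h5
    have h7 := log_lower hs1
    have h8 : (2 : ℝ) ^ s ≤ 2 * Real.log x := by
      have : (2 : ℝ) ^ s * (1 / 2) ≤ 2 ^ s * Real.log 2 := by gcongr
      linarith
    have hlx : 0 < Real.log x := by
      have : (0 : ℝ) < 2 ^ s := by positivity
      linarith
    have h9 : Real.log (Real.log x) ≤ (s : ℝ) + 1 := by
      have h10 := log_upper hx2 hs2
      have h11 : Real.log x ≤ (2 : ℝ) ^ (s + 1) := by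
        calc Real.log x ≤ (2 : ℝ) ^ (s + 1) * Real.log 2 := h10
          _ ≤ (2 : ℝ) ^ (s + 1) * 1 := by gcongr
          _ = (2 : ℝ) ^ (s + 1) := by ring
      have h12 := Real.log_le_log hlx h11
      rw [Real.log_pow] at h12
      push_cast at h12
      have h13 : ((s : ℝ) + 1) * Real.log 2 ≤ ((s : ℝ) + 1) * 1 := by gcongr
      linarith
    have h10 : (2 : ℝ) ^ l i ≤ 2 ^ kap h i := by
      have := hi₂ i (le_trans (le_max_right _ _) hi4)
      have h11 : l i ≤ kap h i := by exact_mod_cast this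
      exact pow_le_pow_right₀ (by norm_num) h11
    have h11 := hi₁ i (le_trans (le_max_left _ _) hi4) x hX
    calc (cnt (CL (P l)) x : ℝ) * Real.log (Real.log x)
        ≤ cnt (CL (P l)) x * ((s : ℝ) + 1) := by gcongr
      _ ≤ 8 * 2 ^ l i * 2 ^ s := h6
      _ ≤ 8 * 2 ^ kap h i * (2 * Real.log x) := by gcongr
      _ = (16 * 2 ^ kap h i) * Real.log x := by ring
      _ ≤ h x * Real.log x := by gcongr
  · -- no multiplicities
    refine hNG _ ?_ ?_
    · intro a ha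
      rcases ha with ha | ⟨s, h1, h2⟩
      · exact Or.inl ha
      · refine Or.inr ⟨s, h1, lt_of_lt_of_le h2 ?_⟩
        have h3 := P_le (l := l) (s + 1)
        have h4 : s + 1 ≤ 2 ^ s := Nat.lt_two_pow_self
        have h5 : 2 ^ (s + 1) ≤ 2 ^ 2 ^ s := Nat.pow_le_pow_right (by norm_num) h4
        have h6 : 2 ^ (2 ^ s + 1) = 2 ^ 2 ^ s + 2 ^ 2 ^ s := by rw [pow_succ]; ring
        omega
    · intro C
      obtain ⟨c, hc⟩ := exists_nat_ge (2 * C)
      obtain ⟨i₃, hi₃⟩ := eventually_atTop.1 (hltend.eventually_ge_atTop c)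
      refine ⟨2 ^ i₃, fun s hs => ?_⟩
      have hs0 : s ≠ 0 := by
        have : 1 ≤ 2 ^ i₃ := Nat.one_le_two_pow
        omega
      have hi : i₃ ≤ Nat.log 2 s := Nat.le_log_of_pow_le (by norm_num) hs
      have h1 := hlow s (2 ^ 2 ^ s) le_rfl
        (Nat.pow_lt_pow_right (by norm_num) (Nat.pow_lt_pow_right (by norm_num) (by omega)))
      have h2 := P_mul (l := l) s
      have h3 := m_add hhalf (Nat.log 2 s)
      have h4 : 2 ^ Nat.log 2 s ≤ s := Nat.pow_log_le_self 2 hs0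
      have h5 : c ≤ 2 ^ l (Nat.log 2 s) := le_trans (hi₃ _ hi) Nat.lt_two_pow_self.le
      have h6 : c * 2 ^ s * 2 ^ m l (Nat.log 2 s) ≤
          2 * (s * cnt (CL (P l)) (2 ^ 2 ^ s)) * 2 ^ m l (Nat.log 2 s) := by
        calc c * 2 ^ s * 2 ^ m l (Nat.log 2 s)
            ≤ 2 ^ l (Nat.log 2 s) * 2 ^ s * 2 ^ m l (Nat.log 2 s) := by gcongr
          _ = 2 ^ (m l (Nat.log 2 s) + l (Nat.log 2 s)) * 2 ^ s := by rw [pow_add]; ring
          _ = 2 ^ Nat.log 2 s * 2 ^ s := by rw [h3]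
          _ ≤ s * 2 ^ s := by gcongr
          _ = s * (P l s * 2 ^ m l (Nat.log 2 s)) := by rw [h2]
          _ ≤ s * (2 * cnt (CL (P l)) (2 ^ 2 ^ s) * 2 ^ m l (Nat.log 2 s)) := by gcongr
          _ = 2 * (s * cnt (CL (P l)) (2 ^ 2 ^ s)) * 2 ^ m l (Nat.log 2 s) := by ring
      have h7 : c * 2 ^ s ≤ 2 * (s * cnt (CL (P l)) (2 ^ 2 ^ s)) :=
        Nat.le_of_mul_le_mul_right h6 (by positivity)
      have h8 : (c : ℝ) * 2 ^ s ≤ 2 * (s * cnt (CL (P l)) (2 ^ 2 ^ s)) := by exact_mod_cast h7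
      have h9 : 2 * C * 2 ^ s ≤ (c : ℝ) * 2 ^ s := by gcongr
      linarith

end Pool.Agent.H55.PM.CTm
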