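import Pool.Agent.H55.PM.Targets

/-! Module SU of board pm_modules: sufficiency. -/

set_option autoImplicit false

open Finset

namespace Pool.Agent.H55.PM

theorem cnt_mono (A : Set ℕ) {x y : ℕ} (h : x ≤ y) : cnt A x ≤ cnt A y := by
  unfold cnt
  apply Set.ncard_le_ncard
  · rintro a ⟨ha, h1⟩
    exact ⟨ha, Set.mem_Icc.2 ⟨(Set.mem_Icc.1 h1).1, (Set.mem_Icc.1 h1).2.trans h⟩⟩
  · exact (Set.finite_Icc 1 y).inter_of_right A

theorem cnt_unbounded {A : Set ℕ} (hA : A.Infinite) (hpos : ∀ a ∈ A, 0 < a) (B : ℕ) :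
    ∃ X : ℕ, ∀ x ≥ X, B ≤ cnt A x := by
  obtain ⟨t, ht, hc⟩ := hA.exists_subset_card_eq B
  refine ⟨t.sup id, fun x hx => ?_⟩
  rw [← hc]
  unfold cnt
  rw [← Set.ncard_coe_finset t]
  apply Set.ncard_le_ncard
  · intro a ha
    have ha' : a ∈ A := ht ha
    refine ⟨ha', Set.mem_Icc.2 ⟨hpos a ha', ?_⟩⟩
    exact (Finset.le_sup (f := id) (Finset.mem_coe.1 ha)).trans hx
  · exact (Set.finite_Icc 1 x).inter_of_right A

theorem load_last (s : ℕ → ℕ) (t₀ y a : ℕ) (h : load s t₀ y a ≠ 0) :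
    ∃ t, t₀ ≤ t ∧ t < y ∧ s t = a ∧ load s t₀ y a = load s t₀ t a + 1 := by
  have hne : ((Ico t₀ y).filter (fun t => s t = a)).Nonempty := by
    rw [← Finset.card_pos]
    exact Nat.pos_of_ne_zero h
  obtain ⟨t, ht, hmax⟩ := Finset.exists_max_image _ (fun t => t) hne
  rw [Finset.mem_filter, Finset.mem_Ico] at ht
  refine ⟨t, ht.1.1, ht.1.2, ht.2, ?_⟩
  unfold load
  have : (Ico t₀ y).filter (fun t => s t = a)
      = insert t ((Ico t₀ t).filter (fun t => s t = a)) := by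
    ext u
    simp only [Finset.mem_filter, Finset.mem_Ico, Finset.mem_insert]
    constructor
    · rintro ⟨⟨h1, h2⟩, h3⟩
      have h4 := hmax u (by rw [Finset.mem_filter, Finset.mem_Ico]; exact ⟨⟨h1, h2⟩, h3⟩)
      rcases h4.eq_or_lt with h5 | h5
      · left; exact h5
      · right; exact ⟨⟨h1, h5⟩, h3⟩
    · rintro (h1 | ⟨⟨h1, h2⟩, h3⟩)
      · subst h1; exact ht
      · exact ⟨⟨h1, h2.trans ht.1.2⟩, h3⟩
  rw [this, Finset.card_insert_of_notMem]
  simp

theorem log_two_pow (x : ℕ) : Real.log ((2 ^ x : ℕ) : ℝ) = x * Real.log 2 := by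
  push_cast
  rw [Real.log_pow]

/-- base two form of `AD` -/
theorem ad_two {A : Set ℕ} (h : AD A) : ∃ (K : ℝ) (y₀ : ℕ), 1 ≤ K ∧ ∀ x y : ℕ, y₀ ≤ y → y ≤ x →
    (cnt A (2 ^ x) : ℝ) * y ≤ K * cnt A (2 ^ y) * x := by
  obtain ⟨K, x₀, hK⟩ := h
  refine ⟨max K 1, x₀, le_max_right _ _, fun x y hy hyx => ?_⟩
  have h1 : x₀ ≤ 2 ^ y := hy.trans (Nat.lt_two_pow_self).le
  have h2 := hK (2 ^ x) (2 ^ y) h1 (Nat.pow_le_pow_right (by norm_num) hyx)
  rw [log_two_pow, log_two_pow] at h2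
  have hl : 0 < Real.log 2 := Real.log_pos (by norm_num)
  have h3 : ((cnt A (2 ^ x) : ℝ) * y) * Real.log 2 ≤ (K * cnt A (2 ^ y) * x) * Real.log 2 := by
    nlinarith [h2]
  have h4 := le_of_mul_le_mul_right h3 hl
  refine h4.trans ?_
  have h5 : (0 : ℝ) ≤ (cnt A (2 ^ y) : ℝ) * x := by positivity
  nlinarith [le_max_left K 1]

/-- base two form of the growth hypothesis -/
theorem gr_two {A : Set ℕ} (h : ∃ (C : ℝ) (x₀ : ℕ), ∀ x ≥ x₀,
    (cnt A x : ℝ) * Real.log (Real.log x) ≤ C * Real.log x) :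
    ∃ (C : ℝ) (y₀ : ℕ), 1 ≤ C ∧ ∀ x ≥ y₀, (cnt A (2 ^ x) : ℝ) * Real.log x ≤ C * x := by
  obtain ⟨C, x₀, hC⟩ := h
  refine ⟨2 * max C 1, max x₀ 4, by linarith [le_max_right C 1], fun x hx => ?_⟩
  have hx0 : x₀ ≤ x := (le_max_left _ _).trans hx
  have hx4 : 4 ≤ x := (le_max_right _ _).trans hx
  have h1 := hC (2 ^ x) (hx0.trans (Nat.lt_two_pow_self).le)
  rw [log_two_pow] at h1
  have hx4' : (4 : ℝ) ≤ x := by exact_mod_cast hx4
  have hl : 0.6931471803 < Real.log 2 := Real.log_two_gt_d9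
  have hl' : Real.log 2 < 0.6931471808 := Real.log_two_lt_d9
  have hxpos : (0 : ℝ) < x := by linarith
  -- sqrt x ≤ x log 2
  have h2 : Real.log x / 2 ≤ Real.log (x * Real.log 2) := by
    rw [Real.log_mul hxpos.ne' (by positivity)]
    have h3 : Real.log 4 ≤ Real.log x := Real.log_le_log (by norm_num) hx4'
    have h4 : -Real.log 2 ≤ Real.log (Real.log 2) := by
      rw [← Real.log_inv]
      apply Real.log_le_log (by norm_num)
      linarith
    have h5 : Real.log 4 = 2 * Real.log 2 := by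
      rw [show (4 : ℝ) = 2 ^ 2 by norm_num, Real.log_pow]; norm_num
    linarith
  have hN : (0 : ℝ) ≤ cnt A (2 ^ x) := by positivity
  have h3 : (cnt A (2 ^ x) : ℝ) * (Real.log x / 2) ≤ C * (x * Real.log 2) :=
    (mul_le_mul_of_nonneg_left h2 hN).trans h1
  have h4 : C * (x * Real.log 2) ≤ max C 1 * x := by
    have h5 : C * (x * Real.log 2) ≤ max C 1 * (x * Real.log 2) :=
      mul_le_mul_of_nonneg_right (le_max_left _ _) (by positivity)
    have h6 : max C 1 * (x * Real.log 2) ≤ max C 1 * x := by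
      apply mul_le_mul_of_nonneg_left _ (by linarith [le_max_right C 1])
      nlinarith
    exact h5.trans h6
  nlinarith

theorem su (hPB : T_PB) (hFR : T_FR) (hSQ : T_SQ) (hMI : T_MI) (hMC : T_MC) (hPR : T_PR) :
    T_SU := by
  classical
  intro A hA hpos hgcd hAD hgr
  obtain ⟨K, y₀, hK1, hK⟩ := ad_two hAD
  obtain ⟨C, y₁, hC1, hC⟩ := gr_two hgr
  obtain ⟨A₀, F, hA₀, hF⟩ := hFR A hgcd
  obtain ⟨X, hX⟩ := cnt_unbounded hA hpos (2 * A₀.card + 2)
  -- the starting time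
  set t₀ : ℕ := 2 * (X + y₀ + 2) with ht₀
  set Av : ℕ → Finset ℕ := fun t =>
    ((Finset.Icc 1 (2 ^ (t / 2))).filter (fun a => a ∈ A)) \ A₀ with hAv
  have hAvcard : ∀ t, cnt A (2 ^ (t / 2)) ≤ (Av t).card + A₀.card := by
    intro t
    have h1 : cnt A (2 ^ (t / 2)) = ((Finset.Icc 1 (2 ^ (t / 2))).filter (fun a => a ∈ A)).card := by
      unfold cnt
      rw [← Set.ncard_coe_finset]
      congr 1
      ext a
      simp only [Set.mem_inter_iff, Set.mem_Icc, Finset.coe_filter, Finset.mem_Icc,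
        Set.mem_ofPred_eq]
      tauto
    rw [h1]
    have h2 := Finset.le_card_sdiff A₀ ((Finset.Icc 1 (2 ^ (t / 2))).filter (fun a => a ∈ A))
    simp only [hAv]
    omega
  have hbig : ∀ t ≥ t₀, 2 * A₀.card + 2 ≤ cnt A (2 ^ (t / 2)) := by
    intro t ht
    apply hX
    have : X ≤ t / 2 := by omega
    exact this.trans (Nat.lt_two_pow_self).le
  obtain ⟨s, hs1, hs2⟩ := hSQ Av t₀ (by
    intro t ht
    rw [← Finset.card_pos]
    have := hAvcard t
    have := hbig t ht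
    omega)
  have hs : ∀ t ≥ t₀, 0 < s t ∧ s t ∈ A ∧ s t ∉ A₀ ∧ 2 * Nat.clog 2 (s t) ≤ t := by
    intro t ht
    have h1 := hs1 t ht
    simp only [hAv, Finset.mem_sdiff, Finset.mem_filter, Finset.mem_Icc] at h1
    refine ⟨h1.1.1.1, h1.1.2, h1.2, ?_⟩
    have h2 : Nat.clog 2 (s t) ≤ t / 2 := Nat.clog_le_of_le_pow h1.1.1.2
    omega
  set N : ℕ → ℝ := fun x => (cnt A (2 ^ x) : ℝ) with hN
  have hNmono : ∀ {x y : ℕ}, x ≤ y → N x ≤ N y := by
    intro x y hxy
    simp only [hN]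
    exact_mod_cast cnt_mono A (Nat.pow_le_pow_right (by norm_num) hxy)
  have hN0 : ∀ x, 0 ≤ N x := fun x => by simp only [hN]; positivity
  -- the load bound at the times of use
  have hload1 : ∀ t ≥ t₀, ∀ y ≥ t, N y * (load s t₀ t (s t) : ℝ) ≤ 6 * K ^ 2 * y := by
    intro t ht y hy
    have h1 := hs2 t ht
    have h2 := hAvcard t
    have h3 := hbig t ht
    set l : ℝ := (load s t₀ t (s t) : ℝ) with hl
    have hl0 : 0 ≤ l := by simp only [hl]; positivity
    have h4 : N (t / 2) ≤ 2 * ((Av t).card : ℝ) := by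
      simp only [hN]
      have : cnt A (2 ^ (t / 2)) ≤ 2 * (Av t).card := by omega
      exact_mod_cast this
    have h5 : ((Av t).card : ℝ) * l ≤ t := by
      simp only [hl]
      exact_mod_cast h1
    have h6 : N (t / 2) * l ≤ 2 * t := by
      nlinarith [mul_le_mul_of_nonneg_right h4 hl0]
    have h7 := hK t (t / 2) (by omega) (by omega)
    have h8 : (t : ℝ) / 3 ≤ ((t / 2 : ℕ) : ℝ) := by
      have : t ≤ 3 * (t / 2) := by omega
      have : (t : ℝ) ≤ 3 * ((t / 2 : ℕ) : ℝ) := by exact_mod_cast this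
      linarith
    have htpos : (0 : ℝ) < t := by
      have : 0 < t := by omega
      exact_mod_cast this
    have h9 : N t ≤ 3 * K * N (t / 2) := by
      have h10 : N t * (t / 3) ≤ K * N (t / 2) * t :=
        (mul_le_mul_of_nonneg_left h8 (hN0 t)).trans h7
      have h11 : N t * t ≤ (3 * K * N (t / 2)) * t := by linarith
      exact le_of_mul_le_mul_right h11 htpos
    have h10 : N t * l ≤ 6 * K * t := by
      have h11 : N t * l ≤ 3 * K * N (t / 2) * l := mul_le_mul_of_nonneg_right h9 hl0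
      have h12 : 3 * K * (N (t / 2) * l) ≤ 3 * K * (2 * t) :=
        mul_le_mul_of_nonneg_left h6 (by linarith)
      linarith
    have h11 := hK y t (by omega) hy
    have h12 : (N y * l) * t ≤ (6 * K ^ 2 * y) * t := by
      have h13 : (N y * t) * l ≤ (K * N t * y) * l := mul_le_mul_of_nonneg_right h11 hl0
      have h14 : (K * y) * (N t * l) ≤ (K * y) * (6 * K * t) :=
        mul_le_mul_of_nonneg_left h10 (by positivity)
      nlinarith
    exact le_of_mul_le_mul_right h12 htpos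
  have hload : ∀ y a, N y * (load s t₀ y a : ℝ) ≤ 6 * K ^ 2 * y + N y := by
    intro y a
    by_cases h0 : load s t₀ y a = 0
    · rw [h0]
      have := hN0 y
      have : (0 : ℝ) ≤ 6 * K ^ 2 * y := by positivity
      simp only [Nat.cast_zero, mul_zero]
      linarith
    · obtain ⟨t, h1, h2, h3, h4⟩ := load_last s t₀ y a h0
      rw [h4, ← h3]
      push_cast
      have := hload1 t h1 y h2.le
      linarith
  refine ⟨MS s t₀ (F + 2 ^ t₀), hMI s t₀ _ (fun t ht => (hs t ht).2.2.2), fun m hm => hm.1, ?_, ?_⟩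
  · exact ⟨F, hPR A A₀ F t₀ _ s hA₀ hF hs le_rfl⟩
  -- polynomial growth
  set M := MS s t₀ (F + 2 ^ t₀) with hM
  set K₀ := F + 2 ^ t₀ with hK₀
  -- logarithm of the number of multiplicities
  have hlogM : ∃ (C₄ : ℝ) (x₂ : ℕ), 0 ≤ C₄ ∧ ∀ x ≥ x₂,
      N x * Real.log (1 + cnt M (2 ^ x)) ≤ C₄ * x := by
    obtain ⟨X₁, hX₁⟩ := cnt_unbounded hA hpos 1
    refine ⟨2 * C + 36 * K ^ 2 + 2, X₁ + y₁ + K₀ + 2 + ⌈Real.exp C⌉₊, by positivity, fun x hx => ?_⟩
    have hp2 : 0 < 2 ^ t₀ := by positivity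
    have hx1 : X₁ ≤ x := by omega
    have hx2 : y₁ ≤ x := by omega
    have hx3 : K₀ + 2 ≤ x := by omega
    have hx4 : Real.exp C ≤ x := by
      have h1 : ⌈Real.exp C⌉₊ ≤ x := by omega
      exact (Nat.le_ceil _).trans (by exact_mod_cast h1)
    have hxpos : (0 : ℝ) < x := (Real.exp_pos C).trans_le hx4
    have hlogx : C ≤ Real.log x := by
      rw [Real.le_log_iff_exp_le hxpos]; exact hx4
    have hNx1 : 1 ≤ N x := by
      simp only [hN]
      exact_mod_cast hX₁ (2 ^ x) (hx1.trans (Nat.lt_two_pow_self).le)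
    have hNxx : N x * Real.log x ≤ C * x := hC x hx2
    have hNx : N x ≤ x := by
      have hCpos : 0 < C := by linarith
      have h1 : N x * C ≤ C * x := (mul_le_mul_of_nonneg_left hlogx (hN0 x)).trans hNxx
      have h2 : C * N x ≤ C * x := by linarith
      exact le_of_mul_le_mul_left h2 hCpos
    -- the load
    set L : ℕ := ⌊(6 * K ^ 2 * ((2 * x + 1 : ℕ) : ℝ) + N (2 * x + 1)) / N (2 * x + 1)⌋₊ with hL
    have hN2 : 1 ≤ N (2 * x + 1) := hNx1.trans (hNmono (by omega))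
    have hLload : ∀ a, load s t₀ (2 * x + 1) a ≤ L := by
      intro a
      rw [hL, Nat.le_floor_iff (by positivity)]
      rw [le_div_iff₀ (by linarith)]
      have := hload (2 * x + 1) a
      linarith
    have hLle : N x * (L : ℝ) ≤ 18 * K ^ 2 * x + N x := by
      have h1 : (L : ℝ) ≤ (6 * K ^ 2 * ((2 * x + 1 : ℕ) : ℝ) + N (2 * x + 1)) / N (2 * x + 1) :=
        Nat.floor_le (by positivity)
      have h2 : (L : ℝ) * N (2 * x + 1) ≤ 6 * K ^ 2 * ((2 * x + 1 : ℕ) : ℝ) + N (2 * x + 1) := by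
        rwa [le_div_iff₀ (by linarith)] at h1
      have h3 : ((L : ℝ) - 1) * N (2 * x + 1) ≤ 6 * K ^ 2 * ((2 * x + 1 : ℕ) : ℝ) := by linarith
      have h4 : ((2 * x + 1 : ℕ) : ℝ) ≤ 3 * x := by
        have : 2 * x + 1 ≤ 3 * x := by omega
        exact_mod_cast this
      have h5 : 6 * K ^ 2 * ((2 * x + 1 : ℕ) : ℝ) ≤ 18 * K ^ 2 * x := by
        nlinarith [sq_nonneg K]
      rcases le_or_gt (L : ℝ) 1 with h6 | h6
      · have h7 : N x * (L : ℝ) ≤ N x * 1 := mul_le_mul_of_nonneg_left h6 (hN0 x)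
        have h8 : 0 ≤ 18 * K ^ 2 * (x : ℝ) := by positivity
        linarith
      · have h7 : N x * ((L : ℝ) - 1) ≤ N (2 * x + 1) * ((L : ℝ) - 1) :=
          mul_le_mul_of_nonneg_right (hNmono (by omega)) (by linarith)
        nlinarith
    have hcount := hMC A s t₀ K₀ x L (fun t ht => ⟨(hs t ht).1, (hs t ht).2.1, (hs t ht).2.2.2⟩) hLload
    have hcR : (1 : ℝ) + cnt M (2 ^ x) ≤ (x : ℝ) ^ 2 * 4 ^ L := by
      have h1 : (cnt M (2 ^ x) : ℝ) ≤ K₀ + N x * 4 ^ L := by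
        simp only [hN]
        exact_mod_cast hcount
      have h2 : (K₀ : ℝ) + 2 ≤ x := by exact_mod_cast hx3
      have h3 : (1 : ℝ) ≤ 4 ^ L := one_le_pow₀ (by norm_num)
      have h4 : (0 : ℝ) ≤ K₀ := by positivity
      have h5 : (1 : ℝ) + cnt M (2 ^ x) ≤ (x + x) * 4 ^ L := by
        have h6 : (1 : ℝ) + K₀ ≤ x * 4 ^ L := by nlinarith
        have h7 : N x * 4 ^ L ≤ x * (4 : ℝ) ^ L := mul_le_mul_of_nonneg_right hNx (by positivity)
        linarith
      refine h5.trans ?_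
      apply mul_le_mul_of_nonneg_right _ (by positivity)
      nlinarith
    have hlog : Real.log (1 + cnt M (2 ^ x)) ≤ 2 * Real.log x + L * Real.log 4 := by
      have h1 : (0 : ℝ) < 1 + cnt M (2 ^ x) := by positivity
      have h2 := Real.log_le_log h1 hcR
      rw [Real.log_mul (by positivity) (by positivity), Real.log_pow, Real.log_pow] at h2
      exact_mod_cast h2
    have hl4 : Real.log 4 ≤ 2 := by
      rw [show (4 : ℝ) = 2 ^ 2 by norm_num, Real.log_pow]
      have := Real.log_two_lt_d9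
      push_cast
      linarith
    have h4pos : 0 ≤ Real.log 4 := Real.log_nonneg (by norm_num)
    calc N x * Real.log (1 + cnt M (2 ^ x)) ≤ N x * (2 * Real.log x + L * Real.log 4) :=
          mul_le_mul_of_nonneg_left hlog (hN0 x)
      _ = 2 * (N x * Real.log x) + (N x * L) * Real.log 4 := by ring
      _ ≤ 2 * (C * x) + (18 * K ^ 2 * x + N x) * 2 := by
          have h1 : (N x * L) * Real.log 4 ≤ (18 * K ^ 2 * x + N x) * 2 := by
            apply mul_le_mul hLle hl4 h4pos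
            have : 0 ≤ 18 * K ^ 2 * (x : ℝ) := by positivity
            linarith [hN0 x]
          linarith
      _ ≤ (2 * C + 36 * K ^ 2 + 2) * x := by nlinarith
  obtain ⟨C₄, x₂, hC₄, hx₂⟩ := hlogM
  refine ⟨⌈3 * C₄⌉₊, 2 ^ (x₂ + 1), fun n hn => ?_⟩
  have hn2 : 2 ≤ n := by
    refine le_trans ?_ hn
    calc 2 = 2 ^ 1 := by norm_num
      _ ≤ 2 ^ (x₂ + 1) := Nat.pow_le_pow_right (by norm_num) (by omega)
  set x := Nat.clog 2 n with hx
  have hnx : n ≤ 2 ^ x := Nat.le_pow_clog (by norm_num) n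
  have hxn : 2 ^ (x - 1) < n := Nat.pow_pred_clog_lt_self (by norm_num) (by omega)
  have hx2 : x₂ ≤ x := by
    by_contra hcon
    have h1 : 2 ^ x ≤ 2 ^ x₂ := Nat.pow_le_pow_right (by norm_num) (by omega)
    have h2 : 2 ^ (x₂ + 1) ≤ 2 ^ x₂ := hn.trans (hnx.trans h1)
    rw [pow_succ] at h2
    have hp3 : 0 < 2 ^ x₂ := by positivity
    omega
  have hx1 : 1 ≤ x := by
    by_contra hcon
    have : x = 0 := by omega
    rw [this] at hnx
    omega
  have h1 := hPB A M n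
  have h2 : (1 + cnt M n) ^ cnt A n ≤ (1 + cnt M (2 ^ x)) ^ cnt A (2 ^ x) := by
    calc (1 + cnt M n) ^ cnt A n ≤ (1 + cnt M (2 ^ x)) ^ cnt A n :=
          Nat.pow_le_pow_left (by have := cnt_mono M hnx; omega) _
      _ ≤ (1 + cnt M (2 ^ x)) ^ cnt A (2 ^ x) :=
          Nat.pow_le_pow_right (by omega) (cnt_mono A hnx)
  have h3 : pc A M n ≤ (1 + cnt M (2 ^ x)) ^ cnt A (2 ^ x) := h1.trans h2
  rcases Nat.eq_zero_or_pos (pc A M n) with h0 | h0
  · rw [h0]; exact Nat.zero_le _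
  have h4 : Real.log (pc A M n) ≤ (⌈3 * C₄⌉₊ : ℝ) * Real.log n := by
    have h5 : Real.log (pc A M n) ≤ Real.log (((1 + cnt M (2 ^ x)) ^ cnt A (2 ^ x) : ℕ) : ℝ) :=
      Real.log_le_log (by exact_mod_cast h0) (by exact_mod_cast h3)
    rw [Nat.cast_pow, Real.log_pow] at h5
    push_cast at h5
    have h6 := hx₂ x hx2
    have h7 : Real.log (pc A M n) ≤ C₄ * x := h5.trans h6
    have h8 : (x : ℝ) ≤ 3 * Real.log n := by
      have h9 : ((x - 1 : ℕ) : ℝ) * Real.log 2 ≤ Real.log n := by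
        rw [← log_two_pow]
        exact Real.log_le_log (by positivity) (by exact_mod_cast hxn.le)
      rw [Nat.cast_sub hx1] at h9
      push_cast at h9
      have h10 : Real.log 2 ≤ Real.log n := Real.log_le_log (by norm_num) (by exact_mod_cast hn2)
      have h11 := Real.log_two_gt_d9
      nlinarith
    have h9 : C₄ * x ≤ C₄ * (3 * Real.log n) := mul_le_mul_of_nonneg_left h8 hC₄
    have h10 : 0 ≤ Real.log n := Real.log_nonneg (by exact_mod_cast (by omega : 1 ≤ n))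
    have h11 : (3 * C₄) * Real.log n ≤ (⌈3 * C₄⌉₊ : ℝ) * Real.log n :=
      mul_le_mul_of_nonneg_right (Nat.le_ceil _) h10
    linarith
  rw [← Real.log_pow] at h4
  have h5 : ((pc A M n : ℕ) : ℝ) ≤ (n : ℝ) ^ ⌈3 * C₄⌉₊ := by
    rwa [Real.log_le_log_iff (by exact_mod_cast h0) (by positivity)] at h4
  exact_mod_cast h5

end Pool.Agent.H55.PM
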