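import Mathlib

/-!
Targets for MP_9198c9_nt (restricted integer partition functions). Board pm_modules.

Part A: counting representations. Part B: a set of multiplicities built from binary digits.
Part C: necessity. Part D: tilings of the digit positions. Part E: clustered sets of parts.
-/

set_option autoImplicit false

open Finset

namespace Pool.Agent.H55.PM

/-! ## Definitions -/

/-- the partitions of `n` with parts in `A` and multiplicities in `M` -/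
def PS (A M : Set ℕ) (n : ℕ) : Set (Nat.Partition n) :=
  {p | ∀ a ∈ p.parts, a ∈ A ∧ p.parts.count a ∈ M}

/-- their number -/
noncomputable def pc (A M : Set ℕ) (n : ℕ) : ℕ := (PS A M n).ncard

/-- the counting function of a set of positive integers -/
noncomputable def cnt (A : Set ℕ) (x : ℕ) : ℕ := (A ∩ Set.Icc 1 x).ncard

/-- eventually positive and of polynomial growth -/
def Good (A M : Set ℕ) : Prop :=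
  (∃ N : ℕ, ∀ n ≥ N, 1 ≤ pc A M n) ∧ ∃ k N : ℕ, ∀ n ≥ N, pc A M n ≤ n ^ k

/-- `cnt A x / log x` is almost decreasing -/
def AD (A : Set ℕ) : Prop := ∃ (K : ℝ) (x₀ : ℕ), ∀ x y : ℕ, x₀ ≤ y → y ≤ x →
  (cnt A x : ℝ) * Real.log y ≤ K * cnt A y * Real.log x

/-- the number of times `t₀ ≤ t < y` with `s t = a` -/
def load (s : ℕ → ℕ) (t₀ y a : ℕ) : ℕ := ((Ico t₀ y).filter (fun t => s t = a)).card

/-- the multiplicity of `a` belonging to the digits `d` -/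
def mu (s d : ℕ → ℕ) (t₀ T a : ℕ) : ℕ :=
  ∑ t ∈ (Ico t₀ T).filter (fun t => s t = a), d t * 2 ^ (t - Nat.clog 2 a)

/-- the set of multiplicities -/
def MS (s : ℕ → ℕ) (t₀ K₀ : ℕ) : Set ℕ :=
  {m | 0 < m ∧ (m ≤ K₀ ∨ ∃ (a T : ℕ) (d : ℕ → ℕ), (∀ t, d t ≤ 3) ∧ m = mu s d t₀ T a)}

/-- the exponents without binary digits in `V` -/
def IV (V : Set ℕ) : Set ℕ := {i | ∀ b ∈ Nat.bitIndices i, b ∉ V}

/-- the exponents with all binary digits in `V` -/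
def EV (V : Set ℕ) : Set ℕ := {e | ∀ b ∈ Nat.bitIndices e, b ∈ V}

/-- the powers `2 ^ i`, `i ∈ IV V` -/
def AV (V : Set ℕ) : Set ℕ := {a | ∃ i ∈ IV V, a = 2 ^ i}

/-- the positive integers all of whose binary digits are at positions in `EV V` -/
def MV (V : Set ℕ) : Set ℕ := {m | 0 < m ∧ ∀ e ∈ Nat.bitIndices m, e ∈ EV V}

/-- `1` and clusters of `P (s + 1) - P s` integers from `2 ^ 2 ^ s` on -/
def CL (P : ℕ → ℕ) : Set ℕ :=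
  {a | a = 1 ∨ ∃ s : ℕ, 2 ^ 2 ^ s ≤ a ∧ a < 2 ^ 2 ^ s + (P (s + 1) - P s)}

/-! ## Part A: counting representations -/

/-- PB. Upper bound. -/
def T_PB : Prop := ∀ (A M : Set ℕ) (n : ℕ), pc A M n ≤ (1 + cnt M n) ^ cnt A n

/-- PP. A representation gives a partition. -/
def T_PP : Prop := ∀ (A M : Set ℕ) (n : ℕ) (S : Finset ℕ) (m : ℕ → ℕ),
  (∀ a ∈ S, 0 < a ∧ a ∈ A) → (∀ a ∈ S, m a = 0 ∨ m a ∈ M) → ∑ a ∈ S, m a * a = n →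
  1 ≤ pc A M n

/-- TU. All choices of small multiplicities are partitions of small numbers. -/
def T_TU : Prop := ∀ (A M : Set ℕ) (X Y : ℕ),
  (1 + cnt M Y) ^ cnt A X ≤ ∑ n ∈ range (X * X * Y + 1), pc A M n

/-- LE. If all numbers of `[n₀, Y]` are represented there are many choices. -/
def T_LE : Prop := ∀ (A M : Set ℕ) (n₀ Y : ℕ), (∀ n, n₀ ≤ n → n ≤ Y → 1 ≤ pc A M n) →
  Y + 1 ≤ n₀ + (1 + cnt M Y) ^ cnt A Y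

/-! ## Part B: the construction of the multiplicities -/

/-- FR. A set of gcd one represents all large numbers with finitely many of its elements. -/
def T_FR : Prop := ∀ A : Set ℕ, (∀ d : ℕ, (∀ a ∈ A, d ∣ a) → d = 1) →
  ∃ (A₀ : Finset ℕ) (F : ℕ), (∀ a ∈ A₀, 0 < a ∧ a ∈ A) ∧
    ∀ n ≥ F, ∃ m : ℕ → ℕ, ∑ a ∈ A₀, m a * a = n

/-- SQ. Always use a least loaded element. -/
def T_SQ : Prop := ∀ (Av : ℕ → Finset ℕ) (t₀ : ℕ), (∀ t ≥ t₀, (Av t).Nonempty) →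
  ∃ s : ℕ → ℕ, (∀ t ≥ t₀, s t ∈ Av t) ∧ ∀ t ≥ t₀, (Av t).card * load s t₀ t (s t) ≤ t

/-- GR. Greedy expansion. -/
def T_GR : Prop := ∀ (u : ℕ → ℕ) (t₀ : ℕ), (∀ t ≥ t₀, 2 ^ t < 2 * u t ∧ u t ≤ 2 ^ t) →
  ∀ T ≥ t₀, ∀ r < 2 ^ T, ∃ (d : ℕ → ℕ) (r' : ℕ), (∀ t, d t ≤ 3) ∧ r' < 2 ^ t₀ ∧
    r = ∑ t ∈ Ico t₀ T, d t * u t + r'

/-- MI. The set of multiplicities is infinite. -/
def T_MI : Prop := ∀ (s : ℕ → ℕ) (t₀ K₀ : ℕ), (∀ t ≥ t₀, 2 * Nat.clog 2 (s t) ≤ t) →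
  (MS s t₀ K₀).Infinite

/-- MC. The number of multiplicities. -/
def T_MC : Prop := ∀ (A : Set ℕ) (s : ℕ → ℕ) (t₀ K₀ x L : ℕ),
  (∀ t ≥ t₀, 0 < s t ∧ s t ∈ A ∧ 2 * Nat.clog 2 (s t) ≤ t) →
  (∀ a, load s t₀ (2 * x + 1) a ≤ L) →
  cnt (MS s t₀ K₀) (2 ^ x) ≤ K₀ + cnt A (2 ^ x) * 4 ^ L

/-- PR. Every large number is represented. -/
def T_PR : Prop := ∀ (A : Set ℕ) (A₀ : Finset ℕ) (F t₀ K₀ : ℕ) (s : ℕ → ℕ),
  (∀ a ∈ A₀, 0 < a ∧ a ∈ A) → (∀ n ≥ F, ∃ m : ℕ → ℕ, ∑ a ∈ A₀, m a * a = n) →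
  (∀ t ≥ t₀, 0 < s t ∧ s t ∈ A ∧ s t ∉ A₀ ∧ 2 * Nat.clog 2 (s t) ≤ t) → F + 2 ^ t₀ ≤ K₀ →
  ∀ n ≥ F, 1 ≤ pc A (MS s t₀ K₀) n

/-- SU. Sufficiency. -/
def T_SU : Prop := ∀ A : Set ℕ, A.Infinite → (∀ a ∈ A, 0 < a) →
  (∀ d : ℕ, (∀ a ∈ A, d ∣ a) → d = 1) → AD A →
  (∃ (C : ℝ) (x₀ : ℕ), ∀ x ≥ x₀, (cnt A x : ℝ) * Real.log (Real.log x) ≤ C * Real.log x) →
  ∃ M : Set ℕ, M.Infinite ∧ (∀ m ∈ M, 0 < m) ∧ Good A M

/-! ## Part C: necessity -/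

/-- N1. The basic inequality. -/
def T_N1 : Prop := ∀ A M : Set ℕ, Good A M → ∃ C : ℝ, 0 ≤ C ∧ ∀ X Y : ℕ, 2 ≤ X → 2 ≤ Y →
  (cnt A X : ℝ) * Real.log (1 + cnt M Y) ≤ C * (Real.log X + Real.log Y)

/-- N2. Almost decreasing. -/
def T_N2 : Prop := ∀ A M : Set ℕ, Good A M → AD A

/-- N3. The parts are sparse. -/
def T_N3 : Prop := ∀ A M : Set ℕ, M.Infinite → (∀ m ∈ M, 0 < m) → Good A M →
  Filter.Tendsto (fun x : ℕ => (cnt A x : ℝ) / Real.log x) Filter.atTop (nhds 0)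

/-- N4. The gcd is one. -/
def T_N4 : Prop := ∀ A M : Set ℕ, Good A M → ∀ d : ℕ, (∀ a ∈ A, d ∣ a) → d = 1

/-! ## Part D: tilings -/

/-- TL. Exactly one representation. -/
def T_TL : Prop := ∀ (V : Set ℕ) (n : ℕ), pc (AV V) (MV V) n = 1

/-- IN. The sets are infinite. -/
def T_IN : Prop := ∀ V : Set ℕ, V.Infinite → Vᶜ.Infinite → (AV V).Infinite ∧ (MV V).Infinite

/-- DV. The density of the exponents. -/
def T_DV : Prop := ∀ (V : Set ℕ) (x : ℕ),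
  x + 1 ≤ 2 ^ (1 + (V ∩ Set.Iic (Nat.log 2 (x + 1))).ncard) * cnt (AV V) (2 ^ x)

/-- TD. Theorem: one representation with parts as dense as the logarithm allows. -/
def T_TD : Prop := ∀ h : ℕ → ℝ, Filter.Tendsto h Filter.atTop Filter.atTop →
  ∃ A M : Set ℕ, A.Infinite ∧ M.Infinite ∧ (∀ a ∈ A, 0 < a) ∧ (∀ m ∈ M, 0 < m) ∧
    (∀ n, pc A M n = 1) ∧ ∃ x₀ : ℕ, ∀ x ≥ x₀, Real.log x ≤ h x * cnt A x

/-! ## Part E: clusters -/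

/-- GP. Too few dyadic levels of products. -/
def T_GP : Prop := ∀ (A M : Set ℕ) (n₀ s : ℕ),
  (∀ a ∈ A, a = 1 ∨ ∃ r : ℕ, 2 ^ 2 ^ r ≤ a ∧ a < 2 ^ (2 ^ r + 1)) →
  (∀ n ≥ n₀, 1 ≤ pc A M n) → n₀ ≤ 2 ^ 2 ^ (s + 1) →
  2 ^ (s + 1) / (Nat.log 2 (cnt A (2 ^ 2 ^ (s + 2))) + 1) ≤
    2 * (s + 4) * cnt M (2 ^ 2 ^ (s + 2))

/-- NG. No set of multiplicities. -/
def T_NG : Prop := ∀ A : Set ℕ,
  (∀ a ∈ A, a = 1 ∨ ∃ r : ℕ, 2 ^ 2 ^ r ≤ a ∧ a < 2 ^ (2 ^ r + 1)) →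
  (∀ C : ℝ, ∃ s₀ : ℕ, ∀ s ≥ s₀, C * 2 ^ s ≤ s * cnt A (2 ^ 2 ^ s)) →
  ∀ M : Set ℕ, M.Infinite → (∀ m ∈ M, 0 < m) → ¬ Good A M

/-- CC. Counting the clusters. -/
def T_CC : Prop := ∀ P : ℕ → ℕ, Monotone P → (∀ s, P s ≤ 2 ^ s) → ∀ s x : ℕ,
  2 ^ 2 ^ s ≤ x → x < 2 ^ 2 ^ (s + 1) →
  P s ≤ P 0 + cnt (CL P) x ∧ cnt (CL P) x ≤ 1 + P (s + 1)

/-- SL. Slow functions. -/
def T_SL : Prop := ∀ κ : ℕ → ℝ, Filter.Tendsto κ Filter.atTop Filter.atTop →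
  ∃ l : ℕ → ℕ, Monotone l ∧ Filter.Tendsto l Filter.atTop Filter.atTop ∧
    (∀ i, l (i + 1) ≤ l i + 1) ∧ (∀ i, 2 * l i ≤ i) ∧ ∃ i₀, ∀ i ≥ i₀, (l i : ℝ) ≤ κ i

/-- CT. Theorem: beyond `log x / log log x` the density does not decide. -/
def T_CT : Prop := ∀ h : ℕ → ℝ, Filter.Tendsto h Filter.atTop Filter.atTop →
  ∃ A : Set ℕ, A.Infinite ∧ (∀ a ∈ A, 0 < a) ∧ 1 ∈ A ∧ AD A ∧
    Filter.Tendsto (fun x : ℕ => (cnt A x : ℝ) / Real.log x) Filter.atTop (nhds 0) ∧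
    (∃ x₀ : ℕ, ∀ x ≥ x₀, (cnt A x : ℝ) * Real.log (Real.log x) ≤ h x * Real.log x) ∧
    ∀ M : Set ℕ, M.Infinite → (∀ m ∈ M, 0 < m) → ¬ Good A M

end Pool.Agent.H55.PM
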